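import Pool.Agent.H85.TU.Targets2

/-!
Row BL1 of the board tum_modules: the blow-ups of the members of the core class.
-/

set_option autoImplicit false

open Set

namespace Pool.Agent.H34.TU.B1

open Pool.Agent.H85.TU

section

variable {C : Type} (y : Str bar (bD C) ℕ)

/-- the entries of two points -/
def ent (p q : UU) : Fin 4 → ℕ := ![sl p 0, sl p 1, sl q 0, sl q 1]

/-- the label of two points of the blow-up -/
def lab (p q : UU) : LC C := (so p, so q, tp y (ent p q))

theorem LL_eq (e : ℕ ≃ UU) {n : ℕ} (v : Fin n → ℕ) (i j : Fin n) :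
    LL (tp (pull (blow y) e) v) i j = lab y (e (v i)) (e (v j)) := rfl

theorem eqv_iff (p q : UU) (i j : Fin 4) : eqv (lab y p q) i j ↔ ent p q i = ent p q j := by
  unfold eqv
  exact decide_eq_true_iff

theorem lb_eq (p q : UU) (i j : Fin 4) : lb (lab y p q) i j = y () ![ent p q i, ent p q j] := by
  change y () (ent p q ∘ ![i, j]) = y () ![ent p q i, ent p q j]
  refine congrArg _ ?_
  funext k
  fin_cases k <;> rfl

theorem tf0 : ¬ (true = false) := by decide

theorem reidx_tp {m n : ℕ} (r : Fin m → Fin n) (w : Fin n → ℕ) :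
    reidx r (tp y w) = tp y (w ∘ r) := rfl

end

theorem pf_BL1 : T_BL1 := by
  intro C α β len hHL y hy e
  obtain ⟨hα, hβ⟩ := hy
  refine ⟨fun u v => ?_, fun u v w => ?_, fun u v => ?_⟩
  · -- pairs
    have e01 : LL (tp (pull (blow y) e) ![u, v]) 0 1 = lab y (e u) (e v) := LL_eq y e _ 0 1
    have e10 : LL (tp (pull (blow y) e) ![u, v]) 1 0 = lab y (e v) (e u) := LL_eq y e _ 1 0
    have e00 : LL (tp (pull (blow y) e) ![u, v]) 0 0 = lab y (e u) (e u) := LL_eq y e _ 0 0
    have huv : (tp (pull (blow y) e) ![u, v]).2 0 1 = decide (u = v) := rfl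
    obtain ⟨p, hp⟩ : ∃ p, p = e u := ⟨_, rfl⟩
    obtain ⟨q, hq⟩ : ∃ q, q = e v := ⟨_, rfl⟩
    change (_ ∧ _ ∧ _) ∧ (_ ∧ _ ∧ _) ∧ _ ∧ _ ∧ (_ ∧ _ ∧ _ ∧ _) ∧ _
    rw [e01, e10, e00, huv, ← hp, ← hq]
    refine ⟨⟨rfl, rfl, ?_⟩, ⟨rfl, rfl, ?_⟩, ?_, ?_, ⟨?_, ?_, ?_, ?_⟩, ?_⟩
    · change tp y (ent q p) = reidx ![2, 3, 0, 1] (tp y (ent p q))
      rw [reidx_tp]
      refine congrArg _ ?_
      funext k
      fin_cases k <;> rfl
    · change tp y (ent p p) = reidx ![0, 1, 0, 1] (tp y (ent p q))
      rw [reidx_tp]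
      refine congrArg _ ?_
      funext k
      fin_cases k <;> rfl
    · intro h
      rw [eqv_iff]
      have h' : so p = false := h
      rcases p with a | p
      · rfl
      · exact absurd h' tf0
    · intro h1 h2 h3 h4
      rw [eqv_iff] at h3 h4
      have h2' : so p = so q := h2
      have h3' : sl p 0 = sl q 0 := h3
      have h4' : sl p 1 = sl q 1 := h4
      have hpq : p = q := by
        rcases p with a | ⟨a, b⟩ <;> rcases q with c | ⟨c, d⟩
        · exact congrArg Sum.inl h3'
        · exact absurd h2' (by change ¬ (false = true); decide)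
        · exact absurd h2' (by change ¬ (true = false); decide)
        · have h5 : a = c := h3'
          have h6 : b = d := h4'
          rw [h5, h6]
      have huv' : u = v := e.injective (by rw [← hp, ← hq, hpq])
      rw [huv'] at h1
      simp at h1
    · intro i
      rw [eqv_iff]
    · intro i j h
      rw [eqv_iff] at h ⊢
      exact h.symm
    · intro i j k h h'
      rw [eqv_iff] at h h' ⊢
      exact h.trans h'
    · intro i j k l h h'
      rw [eqv_iff] at h h'
      rw [lb_eq, lb_eq, h, h']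
    · intro f
      change reidx f (tp y (ent p q)) ∈ α
      rw [reidx_tp]
      exact hα _
  · -- rows
    intro i hi
    have e01 : LL (tp (pull (blow y) e) ![u, v, w]) 0 1 = lab y (e u) (e v) := LL_eq y e _ 0 1
    have e02 : LL (tp (pull (blow y) e) ![u, v, w]) 0 2 = lab y (e u) (e w) := LL_eq y e _ 0 2
    have e12 : LL (tp (pull (blow y) e) ![u, v, w]) 1 2 = lab y (e v) (e w) := LL_eq y e _ 1 2
    rw [e01, e02, e12]
    intro _ h
    rw [eqv_iff] at h
    intro k hk
    have h1 : ent (e u) (e w) i = ent (e v) (e w) 0 := by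
      have h2 : ent (e u) (e w) i = ent (e u) (e v) i := by
        fin_cases i
        · rfl
        · rfl
        · exact absurd hi (by decide)
        · exact absurd hi (by decide)
      rw [h2, h]
      rfl
    have h3 : ent (e u) (e w) k = ent (e v) (e w) k := by
      fin_cases k
      · exact absurd hk (by decide)
      · exact absurd hk (by decide)
      · rfl
      · rfl
    refine ⟨?_, ?_, ?_⟩
    · rw [lb_eq, lb_eq, h1, h3]
    · rw [lb_eq, lb_eq, h1, h3]
    · change decide (ent (e u) (e w) i = ent (e u) (e w) k) =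
        decide (ent (e v) (e w) 0 = ent (e v) (e w) k)
      rw [h1, h3]
  · -- witnesses
    suffices h : ∃ r : UU, Tas' β len (lab y (e u) (e v)) (lab y (e u) r) (lab y (e v) r) by
      obtain ⟨r, hr⟩ := h
      refine ⟨e.symm r, ?_⟩
      have e01 : LL (tp (pull (blow y) e) ![u, v, e.symm r]) 0 1 = lab y (e u) (e v) :=
        LL_eq y e _ 0 1
      have e02 : LL (tp (pull (blow y) e) ![u, v, e.symm r]) 0 2 = lab y (e u) (e (e.symm r)) :=
        LL_eq y e _ 0 2
      have e12 : LL (tp (pull (blow y) e) ![u, v, e.symm r]) 1 2 = lab y (e v) (e (e.symm r)) :=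
        LL_eq y e _ 1 2
      rw [Equiv.apply_symm_apply] at e02 e12
      change Tas' β len _ _ _
      rw [e01, e02, e12]
      exact hr
    generalize e u = p
    generalize e v = q
    have ft : ¬ (false = true) := by decide
    have tf : ¬ (true = false) := by decide
    rcases p with a | ⟨a, b⟩ <;> rcases q with c | ⟨c, d⟩
    · refine ⟨Sum.inr (a, c), fun _ _ => ⟨rfl, ?_, ?_⟩, fun h => absurd h ft,
        fun _ h => absurd h ft, fun h => absurd h ft⟩
      · rw [eqv_iff]
        rfl
      · rw [eqv_iff]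
        rfl
    · obtain ⟨d', hd'⟩ := hHL y ⟨hα, hβ⟩ (len (y () ![a, a]) + 1)
      refine ⟨Sum.inl d', fun _ h => absurd h tf, fun h => absurd h ft, fun _ _ => ⟨rfl, ?_⟩,
        fun h => absurd h ft⟩
      rw [lb_eq, lb_eq]
      exact hd'
    · obtain ⟨k, hk⟩ : ∃ k, k = (Nat.unpair (len (lb (lab y (Sum.inr (a, b)) (Sum.inl c)) 2 2))).1 :=
        ⟨_, rfl⟩
      suffices h : ∃ d' : ℕ, Tk β (lab y (Sum.inr (a, b)) (Sum.inl d')) k by
        obtain ⟨d', hd'⟩ := h
        refine ⟨Sum.inl d', fun h => absurd h tf, fun _ _ => ⟨rfl, ?_⟩, fun h => absurd h tf,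
          fun _ h => absurd h ft⟩
        rw [← hk]
        exact hd'
      rcases k with _ | _ | k
      · refine ⟨a, ?_⟩
        change eqv _ 0 2
        rw [eqv_iff]
        rfl
      · refine ⟨b, ?_⟩
        change eqv _ 1 2
        rw [eqv_iff]
        rfl
      · obtain ⟨d', hd'⟩ := hβ k a b
        refine ⟨d', ?_⟩
        change reidx ![0, 1, 2] (tp y (ent (Sum.inr (a, b)) (Sum.inl d'))) ∈ β k
        rw [reidx_tp]
        have h1 : (ent (Sum.inr (a, b)) (Sum.inl d') ∘ ![0, 1, 2] : Fin 3 → ℕ) = ![a, b, d'] := by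
          funext j
          fin_cases j <;> rfl
        rw [h1]
        exact hd'
    · refine ⟨Sum.inl 0, fun h => absurd h tf, fun _ h => absurd h tf, fun h => absurd h tf,
        fun _ _ => rfl⟩

end Pool.Agent.H34.TU.B1
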