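import Pool.Agent.H85.TU.Targets2

/-!
Row BL2 of the board tum_modules: blow-ups and isomorphisms.
-/

set_option autoImplicit false

open Set

namespace Pool.Agent.H34.TU

open Pool.Agent.H85.TU

/-- the label of two points of the blow-up -/
def lab {C : Type} (y : Str bar (bD C) ℕ) (p q : UU) : LC C :=
  (so p, so q, tp y ![sl p 0, sl p 1, sl q 0, sl q 1])

theorem tp_iso {C : Type} {y y' : Str bar (bD C) ℕ} {g : ℕ ≃ ℕ} (hg : ∀ i v, y' i (g ∘ v) = y i v)
    {n : ℕ} (w : Fin n → ℕ) : tp y' (g ∘ w) = tp y w := by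
  refine Prod.ext ?_ ?_
  · funext i v
    exact hg i (w ∘ v)
  · funext i j
    change decide (g (w i) = g (w j)) = decide (w i = w j)
    exact decide_eq_decide.mpr g.injective.eq_iff

theorem eq_inl {p : UU} (h : so p = false) : p = Sum.inl (sl p 0) := by
  rcases p with a | p
  · rfl
  · exact absurd h (fun h2 : true = false => Bool.noConfusion h2)

theorem pf_BL2 : T_BL2 := by
  intro C y y'
  constructor
  · rintro ⟨g, hg⟩
    refine ⟨Equiv.sumCongr g (Equiv.prodCongr g g), fun i v => ?_⟩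
    have h1 : ∀ p : UU, so ((Equiv.sumCongr g (Equiv.prodCongr g g)) p) = so p := by
      rintro (a | ⟨a, b⟩) <;> rfl
    have h2 : ∀ (p : UU) (i : Fin 2), sl ((Equiv.sumCongr g (Equiv.prodCongr g g)) p) i =
        g (sl p i) := by
      rintro (a | ⟨a, b⟩) i
      · rfl
      · fin_cases i <;> rfl
    change lab y' ((Equiv.sumCongr g (Equiv.prodCongr g g)) (v 0))
      ((Equiv.sumCongr g (Equiv.prodCongr g g)) (v 1)) = lab y (v 0) (v 1)
    unfold lab
    rw [h1, h1, h2, h2, h2, h2, ← tp_iso hg]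
    refine congrArg _ (congrArg _ (congrArg _ ?_))
    funext k
    fin_cases k <;> rfl
  · rintro ⟨h, hh⟩
    have key : ∀ p q : UU, lab y' (h p) (h q) = lab y p q := fun p q => hh () ![p, q]
    have hso : ∀ p : UU, so (h p) = so p := fun p => congrArg Prod.fst (key p p)
    have hso' : ∀ p : UU, so (h.symm p) = so p := by
      intro p
      rw [← hso (h.symm p), Equiv.apply_symm_apply]
    have e1 : ∀ a : ℕ, h (Sum.inl a) = Sum.inl (sl (h (Sum.inl a)) 0) := fun a =>
      eq_inl (hso _)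
    have e2 : ∀ a : ℕ, h.symm (Sum.inl a) = Sum.inl (sl (h.symm (Sum.inl a)) 0) := fun a =>
      eq_inl (hso' _)
    let g : ℕ ≃ ℕ :=
      { toFun := fun a => sl (h (Sum.inl a)) 0
        invFun := fun a => sl (h.symm (Sum.inl a)) 0
        left_inv := by
          intro a
          change sl (h.symm (Sum.inl (sl (h (Sum.inl a)) 0))) 0 = a
          rw [← e1, Equiv.symm_apply_apply]
          rfl
        right_inv := by
          intro a
          change sl (h (Sum.inl (sl (h.symm (Sum.inl a)) 0))) 0 = a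
          rw [← e2, Equiv.apply_symm_apply]
          rfl }
    refine ⟨g, fun i v => ?_⟩
    have h3 := key (Sum.inl (v 0)) (Sum.inl (v 1))
    have h4 := congrFun (congrFun (congrArg (fun s : LC C => s.2.2.1) h3) ()) ![0, 2]
    have h5 : (![sl (h (Sum.inl (v 0))) 0, sl (h (Sum.inl (v 0))) 1, sl (h (Sum.inl (v 1))) 0,
        sl (h (Sum.inl (v 1))) 1] ∘ ![0, 2] : Fin 2 → ℕ) = g ∘ v := by
      funext k
      fin_cases k <;> rfl
    have h6 : (![sl (Sum.inl (v 0)) 0, sl (Sum.inl (v 0)) 1, sl (Sum.inl (v 1)) 0,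
        sl (Sum.inl (v 1)) 1] ∘ ![0, 2] : Fin 2 → ℕ) = v := by
      funext k
      fin_cases k <;> rfl
    have h7 : y' () (![sl (h (Sum.inl (v 0))) 0, sl (h (Sum.inl (v 0))) 1,
        sl (h (Sum.inl (v 1))) 0, sl (h (Sum.inl (v 1))) 1] ∘ ![0, 2] : Fin 2 → ℕ) =
        y () (![sl (Sum.inl (v 0)) 0, sl (Sum.inl (v 0)) 1, sl (Sum.inl (v 1)) 0,
        sl (Sum.inl (v 1)) 1] ∘ ![0, 2] : Fin 2 → ℕ) := h4
    rw [h5, h6] at h7
    exact h7

end Pool.Agent.H34.TU
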